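import Pool.Agent.MWN.StmtsH

/-!
# MWN, row NEX

An exchange in the language gives the exchange for the largest types.
-/

namespace Pool.Agent.MWN.H47

open Pool.Agent.Helper14_MV Pool.Agent.Helper2_MV Pool.Agent.MVO Pool.Agent.MWL Pool.Agent.MWS
  Pool.Agent.MWF Pool.Agent.MWN

/-- the number of letters which are inserted -/
def hm (c : Cd) : ℕ := if c.h = 2 then 2 else 0

def PP (i : ℕ) (A B : ℕ → Cd) (st : Bool) (t : ℕ) : List ℕ :=
  if t = i ∧ st = true then List.replicate (hm (B t)) 1 else List.replicate (hm (A t)) 0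

def QQ (i : ℕ) (A B : ℕ → Cd) (st : Bool) (t : ℕ) : List ℕ :=
  if t = i ∧ st = true then List.replicate (hm (A t)) 0 else List.replicate (hm (B t)) 1

theorem ns0 (k : ℕ) : NS k 0 := by unfold NS; omega

theorem ns1 (k : ℕ) : NS k 1 := by unfold NS; omega

theorem two_blk {k : ℕ} {X : ℕ → List ℕ} (h : Two01 k X) : BlkOk k X := by
  intro j hj c hc
  rcases h j hj c hc with rfl | rfl
  · exact ns0 k
  · exact ns1 k

theorem sh_deg {k : ℕ} {a b : ℕ → ℕ} (h : Sh k a b) (h2 : 2 ≤ deg k a) : 2 ≤ deg k b := by
  unfold deg at *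
  by_cases hx : ∃ j ≤ k, 2 ≤ b j
  · obtain ⟨j, hj, h3⟩ := hx
    have h4 : b j ≤ ∑ j ∈ Finset.range (k + 1), b j :=
      Finset.single_le_sum (f := b) (fun _ _ => Nat.zero_le _)
        (Finset.mem_range.2 (by omega))
    omega
  · have h5 : ∑ j ∈ Finset.range (k + 1), a j = ∑ j ∈ Finset.range (k + 1), b j := by
      refine Finset.sum_congr rfl fun j hj => ?_
      have hj' : j ≤ k := by have := Finset.mem_range.1 hj; omega
      rcases h j hj' with h6 | h6
      · exact h6
      · exact absurd ⟨j, hj', h6.2⟩ hx
    omega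

theorem okb {k : ℕ} {X : ℕ → List ℕ} {a b : ℕ → ℕ} (h : Two01 k X) (ha : 2 ≤ deg k a)
    (hb : 2 ≤ deg k b) (h0 : Sh k a (ty X 0)) (h1 : Sh k b (ty X 1)) : OkB k X := by
  refine ⟨two_blk h, ?_⟩
  intro j hj c hc
  rcases h j hj c hc with rfl | rfl
  · exact sh_deg h0 ha
  · exact sh_deg h1 hb

theorem sh_symm {k : ℕ} {a b : ℕ → ℕ} (h : Sh k a b) : Sh k b a := by
  intro j hj
  rcases h j hj with h1 | h1
  · exact Or.inl h1.symm
  · exact Or.inr ⟨h1.2, h1.1⟩

theorem sh_trans {k : ℕ} {a b c : ℕ → ℕ} (h : Sh k a b) (h' : Sh k b c) : Sh k a c := by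
  intro j hj
  rcases h j hj with h1 | h1
  · rcases h' j hj with h2 | h2
    · exact Or.inl (h1.trans h2)
    · exact Or.inr ⟨by omega, h2.2⟩
  · rcases h' j hj with h2 | h2
    · exact Or.inr ⟨h1.1, by omega⟩
    · exact Or.inr ⟨h1.1, h2.2⟩

/-- the shapes after the insertion -/
theorem sat_sh {c : Cd} {n : ℕ} (h : c.sat n = true) :
    c.h = n + hm c ∨ (2 ≤ c.h ∧ 2 ≤ n + hm c) := by
  cases c
  · simp [Cd.sat] at h
    simp [Cd.h, hm, h]
  · simp [Cd.sat] at h
    simp [Cd.h, hm, h]
  · right; simp [Cd.h, hm]
  · right; simp [Cd.h, hm]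
  · right; simp [Cd.h, hm]

theorem cnt0 (i : ℕ) (A B : ℕ → Cd) (st : Bool) (X : ℕ → List ℕ) (t : ℕ) :
    (PP i A B st t ++ X t ++ QQ i A B st t).count 0 = (X t).count 0 + hm (A t) := by
  unfold PP QQ
  split_ifs
  · simp [List.count_replicate]
  · simp [List.count_replicate]; omega

theorem cnt1 (i : ℕ) (A B : ℕ → Cd) (st : Bool) (X : ℕ → List ℕ) (t : ℕ) :
    (PP i A B st t ++ X t ++ QQ i A B st t).count 1 = (X t).count 1 + hm (B t) := by
  unfold PP QQ
  split_ifs
  · simp [List.count_replicate]; omega
  · simp [List.count_replicate]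

theorem two_ins {k : ℕ} (i : ℕ) (A B : ℕ → Cd) (st : Bool) {X : ℕ → List ℕ} (h : Two01 k X) :
    Two01 k (fun t => PP i A B st t ++ X t ++ QQ i A B st t) := by
  intro j hj c hc
  simp only [List.mem_append] at hc
  rcases hc with (hc | hc) | hc
  · unfold PP at hc
    split_ifs at hc
    · exact Or.inr (List.eq_of_mem_replicate hc)
    · exact Or.inl (List.eq_of_mem_replicate hc)
  · exact h j hj c hc
  · unfold QQ at hc
    split_ifs at hc
    · exact Or.inl (List.eq_of_mem_replicate hc)
    · exact Or.inr (List.eq_of_mem_replicate hc)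

theorem cs0 (i : ℕ) (A B : ℕ → Cd) (st : Bool) (t : ℕ) :
    ty (cs i A B st) 0 t = (A t).h := by
  unfold ty cs wd
  split_ifs
  · simp [List.count_replicate]
  · simp [List.count_replicate]

theorem cs1 (i : ℕ) (A B : ℕ → Cd) (st : Bool) (t : ℕ) :
    ty (cs i A B st) 1 t = (B t).h := by
  unfold ty cs wd
  split_ifs
  · simp [List.count_replicate]
  · simp [List.count_replicate]

theorem cs_two (k i : ℕ) (A B : ℕ → Cd) (st : Bool) : Two01 k (cs i A B st) := by
  intro j _ c hc
  unfold cs wd at hc
  split_ifs at hc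
  · rcases List.mem_append.1 hc with h | h
    · exact Or.inr (List.eq_of_mem_replicate h)
    · exact Or.inl (List.eq_of_mem_replicate h)
  · rcases List.mem_append.1 hc with h | h
    · exact Or.inl (List.eq_of_mem_replicate h)
    · exact Or.inr (List.eq_of_mem_replicate h)

theorem h12 {c : Cd} (h : c ≠ Cd.z) : c.h = 1 ∨ c.h = 2 := by
  cases c <;> simp_all [Cd.h]

theorem nb_two (p q : ℕ) (st : Bool) : ∀ c ∈ nb p q st, c = 0 ∨ c = 1 := by
  intro c hc
  unfold nb at hc
  split_ifs at hc <;> simp at hc <;> tauto

theorem cn_two (k i : ℕ) (A B : ℕ → Cd) (st : Bool) : Two01 k (cn i A B st) := by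
  intro j hj c hc
  unfold cn at hc
  split_ifs at hc
  · exact nb_two _ _ _ c hc
  · exact cs_two k i A B st j hj c hc

theorem nb0 {p q : ℕ} (hp : p = 1 ∨ p = 2) (hq : q = 1 ∨ q = 2) (st : Bool) :
    (nb p q st).count 0 = p ∧ (nb p q st).count 1 = q := by
  rcases hp with rfl | rfl <;> rcases hq with rfl | rfl <;> cases st <;> decide

theorem cn0 {i : ℕ} {A B : ℕ → Cd} (hA : A i ≠ Cd.z) (hB : B i ≠ Cd.z) (st : Bool) (t : ℕ) :
    ty (cn i A B st) 0 t = (A t).h := by
  by_cases ht : t = i
  · subst ht
    unfold ty cn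
    rw [if_pos rfl]
    exact (nb0 (h12 hA) (h12 hB) st).1
  · have := cs0 i A B st t
    unfold ty at *
    unfold cn
    rw [if_neg ht, this]

theorem cn1 {i : ℕ} {A B : ℕ → Cd} (hA : A i ≠ Cd.z) (hB : B i ≠ Cd.z) (st : Bool) (t : ℕ) :
    ty (cn i A B st) 1 t = (B t).h := by
  by_cases ht : t = i
  · subst ht
    unfold ty cn
    rw [if_pos rfl]
    exact (nb0 (h12 hA) (h12 hB) st).2
  · have := cs1 i A B st t
    unfold ty at *
    unfold cn
    rw [if_neg ht, this]

/-! ### states -/

theorem sub_pair {a b : ℕ} {l : List ℕ} (ha : a ∈ l) (hb : b ∈ l) (hab : a ≠ b) :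
    [a, b].Sublist l ∨ [b, a].Sublist l := by
  induction l with
  | nil => simp at ha
  | cons c l ih =>
    by_cases hc : c = a
    · subst hc
      left
      have : b ∈ l := by
        rcases List.mem_cons.1 hb with h | h
        · exact absurd h.symm hab
        · exact h
      exact List.Sublist.cons_cons c (List.singleton_sublist.2 this)
    · by_cases hc' : c = b
      · subst hc'
        right
        have : a ∈ l := by
          rcases List.mem_cons.1 ha with h | h
          · exact absurd h hab
          · exact h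
        exact List.Sublist.cons_cons c (List.singleton_sublist.2 this)
      · have h1 : a ∈ l := by
          rcases List.mem_cons.1 ha with h | h
          · exact absurd h.symm hc
          · exact h
        have h2 : b ∈ l := by
          rcases List.mem_cons.1 hb with h | h
          · exact absurd h.symm hc'
          · exact h
        rcases ih h1 h2 with h | h
        · exact Or.inl (h.trans (List.sublist_cons_self _ _))
        · exact Or.inr (h.trans (List.sublist_cons_self _ _))

theorem pair_mem {a b : ℕ} {l : List ℕ} (h : [a, b].Sublist l) : a ∈ l ∧ b ∈ l :=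
  ⟨h.subset (by simp), h.subset (by simp)⟩

theorem sub_app {a b : ℕ} {l m : List ℕ} (ha : a ∈ l) (hb : b ∈ m) : [a, b].Sublist (l ++ m) := by
  have : [a, b] = [a] ++ [b] := rfl
  rw [this]
  exact (List.singleton_sublist.2 ha).append (List.singleton_sublist.2 hb)

/-- no `b` before an `a` is created by `a`s in front and `b`s behind -/
theorem sub_ins {a b m n : ℕ} {l : List ℕ} (hab : a ≠ b)
    (h : [b, a].Sublist (List.replicate m a ++ l ++ List.replicate n b)) : [b, a].Sublist l := by
  have h1 : [b, a].Sublist (l ++ List.replicate n b) := by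
    rw [List.append_assoc] at h

    induction m with
    | zero => simpa using h
    | succ m ih =>
      rw [List.replicate_succ, List.cons_append] at h
      rcases List.sublist_cons_iff.1 h with h | ⟨r, hr, h⟩
      · exact ih h
      · exfalso
        have := congrArg List.head? hr
        simp at this
        exact hab this.symm
  have h2 : [a, b].Sublist (List.replicate n b ++ l.reverse) := by
    have := List.reverse_sublist.2 h1
    simpa using this
  have h3 : [a, b].Sublist l.reverse := by
    clear h h1
    induction n with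
    | zero => simpa using h2
    | succ n ih =>
      rw [List.replicate_succ, List.cons_append] at h2
      rcases List.sublist_cons_iff.1 h2 with h | ⟨r, hr, h⟩
      · exact ih h
      · exfalso
        have := congrArg List.head? hr
        simp at this
        exact hab this
  have := List.reverse_sublist.2 h3
  simpa using this

/-- the pair which is forbidden in the state `s` -/
def fp (s : Bool) : List ℕ := if s then [0, 1] else [1, 0]

theorem fst_iff (s : Bool) (l : List ℕ) : Fst s l ↔ ¬ (fp s).Sublist l := Iff.rfl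

theorem ins_eq (i : ℕ) (A B : ℕ → Cd) (st : Bool) (l : List ℕ) :
    PP i A B st i ++ l ++ QQ i A B st i =
      (if st then List.replicate (hm (B i)) 1 ++ l ++ List.replicate (hm (A i)) 0
        else List.replicate (hm (A i)) 0 ++ l ++ List.replicate (hm (B i)) 1) := by
  unfold PP QQ
  cases st <;> simp

theorem fst_ins (i : ℕ) (A B : ℕ → Cd) (st : Bool) {l : List ℕ} (h : Fst st l) :
    Fst st (PP i A B st i ++ l ++ QQ i A B st i) := by
  rw [ins_eq]
  intro h'
  cases st
  · exact h (sub_ins (by decide) h')
  · exact h (sub_ins (by decide) h')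

theorem not_fst_ins (i : ℕ) (A B : ℕ → Cd) (st s : Bool) {l : List ℕ} (h : ¬ Fst s l) :
    ¬ Fst s (PP i A B st i ++ l ++ QQ i A B st i) := by
  unfold Fst at *
  rw [not_not] at *
  exact h.trans ((List.sublist_append_right _ _).trans (List.sublist_append_left _ _))

theorem fst_other {l : List ℕ} (h0 : 0 ∈ l) (h1 : 1 ∈ l) {st : Bool} (h : Fst st l) :
    ¬ Fst (!st) l := by
  intro h'
  rcases sub_pair h0 h1 (by decide) with h2 | h2
  · cases st
    · exact h' h2
    · exact h h2
  · cases st
    · exact h h2
    · exact h' h2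

theorem fst_cs (i : ℕ) (A B : ℕ → Cd) (st : Bool) : Fst st (cs i A B st i) := by
  unfold cs wd
  intro h
  cases st
  · simp only [and_false, if_false, Bool.false_eq_true] at h
    have h' : [1, 0].Sublist (List.replicate (A i).h 0 ++ [] ++ List.replicate (B i).h 1) := by
      simpa using h
    have := sub_ins (by decide) h'
    simp at this
  · simp only [and_true, if_true] at h
    have h' : [0, 1].Sublist (List.replicate (B i).h 1 ++ [] ++ List.replicate (A i).h 0) := by
      simpa using h
    have := sub_ins (by decide) h'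
    simp at this

theorem mem_of_ty {X : ℕ → List ℕ} {c t n : ℕ} (h : ty X c t = n) (hn : 1 ≤ n) : c ∈ X t := by
  unfold ty at h
  exact List.count_pos_iff.1 (by omega)

theorem nb_not {p q : ℕ} (hp : p = 1 ∨ p = 2) (hq : q = 1 ∨ q = 2) (st : Bool) :
    ¬ Fst st (nb p q st) := by
  unfold Fst
  rcases hp with rfl | rfl <;> rcases hq with rfl | rfl <;> cases st <;> decide

theorem nb_other {p q : ℕ} (hp : p = 1 ∨ p = 2) (hq : q = 1 ∨ q = 2) (h : p = 2 ∨ q = 2)
    (st : Bool) : ¬ Fst (!st) (nb p q st) := by
  unfold Fst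
  rcases hp with rfl | rfl <;> rcases hq with rfl | rfl <;> cases st <;> first | decide | omega

theorem ones {c : Cd} {n : ℕ} (h : c.sat n = true) (hc : c.h = 1) : n = 1 := by
  cases c <;> simp_all [Cd.h, Cd.sat]

theorem hm_one {c : Cd} (hc : c.h = 1) : hm c = 0 := by
  unfold hm; rw [if_neg]; omega

theorem hm_two {c : Cd} (hc : c.h = 2) : hm c = 2 := by
  unfold hm; rw [if_pos hc]

theorem fst_V {A B : ℕ → Cd} {i : ℕ} {st : Bool} {l : List ℕ} (hA : A i ≠ Cd.z)
    (hB : B i ≠ Cd.z) (h01 : ∀ c ∈ l, c = 0 ∨ c = 1) (h0 : (A i).sat (l.count 0) = true)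
    (h1 : (B i).sat (l.count 1) = true) (h : ¬ Fst st l) :
    Fst (!st) (PP i A B st i ++ l ++ QQ i A B st i) ↔ Fst (!st) (nb (A i).h (B i).h st) := by
  have hm0 : 0 ∈ l := by
    unfold Fst at h
    rw [not_not] at h
    cases st
    · exact (pair_mem h).2
    · exact (pair_mem h).1
  have hm1 : 1 ∈ l := by
    unfold Fst at h
    rw [not_not] at h
    cases st
    · exact (pair_mem h).1
    · exact (pair_mem h).2
  by_cases hh : (A i).h = 1 ∧ (B i).h = 1
  · have c0 := ones h0 hh.1
    have c1 := ones h1 hh.2
    have hl : l = nb 1 1 st := by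
      have hlen : l.length = 2 := by
        have e : l.length = l.count 0 + l.count 1 := by
          clear h h0 h1 c0 c1 hm0 hm1
          induction l with
          | nil => rfl
          | cons a l ih =>
            have h' := ih (fun c hc => h01 c (List.mem_cons_of_mem _ hc))
            rcases h01 a List.mem_cons_self with rfl | rfl
            · simp; omega
            · simp; omega
        omega
      unfold Fst at h
      rw [not_not] at h
      have h' : (if st = true then [0, 1] else [1, 0]) = l :=
        h.eq_of_length (by rw [hlen]; cases st <;> rfl)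
      rw [← h']
      cases st <;> rfl
    rw [ins_eq, hm_one hh.1, hm_one hh.2, hh.1, hh.2, hl]
    cases st <;> simp
  · have hA' := h12 hA
    have hB' := h12 hB
    have h2 : (A i).h = 2 ∨ (B i).h = 2 := by omega
    have e2 := nb_other hA' hB' h2 st
    refine iff_of_false ?_ e2
    rw [ins_eq]
    unfold Fst
    rw [not_not]
    cases st
    · simp only [Bool.not_false, if_true, Bool.false_eq_true, if_false]
      rcases h2 with h2 | h2
      · rw [hm_two h2]
        refine (sub_app (m := l) (l := List.replicate 2 0) (by simp) hm1).trans ?_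
        exact List.sublist_append_left _ _
      · rw [hm_two h2]
        refine sub_app ?_ (by simp)
        exact List.mem_append_right _ hm0
    · simp only [Bool.not_true, if_true, Bool.false_eq_true, if_false]
      rcases h2 with h2 | h2
      · rw [hm_two h2]
        refine sub_app ?_ (by simp)
        exact List.mem_append_right _ hm1
      · rw [hm_two h2]
        refine (sub_app (m := l) (l := List.replicate 2 1) (by simp) hm0).trans ?_
        exact List.sublist_append_left _ _

theorem nex : NexStmt := by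
  intro β hB k i A B st U V hi _ hAi hBi hdA hdB tU tV sA0 sB1 sA0' sB1' m0 m1 hr hU hV
  have r1 := rr_ins' β (PP i A B st) (QQ i A B st) (two_blk tU) (two_blk tV) hr
  have shU0 : Sh k (fun j => (A j).h) (ty (fun t => PP i A B st t ++ U t ++ QQ i A B st t) 0) := by
    intro t ht
    have e : ty (fun t => PP i A B st t ++ U t ++ QQ i A B st t) 0 t = (U t).count 0 + hm (A t) :=
      cnt0 i A B st U t
    rw [e]
    exact sat_sh (sA0 t ht)
  have shU1 : Sh k (fun j => (B j).h) (ty (fun t => PP i A B st t ++ U t ++ QQ i A B st t) 1) := by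
    intro t ht
    have e : ty (fun t => PP i A B st t ++ U t ++ QQ i A B st t) 1 t = (U t).count 1 + hm (B t) :=
      cnt1 i A B st U t
    rw [e]
    exact sat_sh (sB1 t ht)
  have shV0 : Sh k (fun j => (A j).h) (ty (fun t => PP i A B st t ++ V t ++ QQ i A B st t) 0) := by
    intro t ht
    have e : ty (fun t => PP i A B st t ++ V t ++ QQ i A B st t) 0 t = (V t).count 0 + hm (A t) :=
      cnt0 i A B st V t
    rw [e]
    exact sat_sh (sA0' t ht)
  have shV1 : Sh k (fun j => (B j).h) (ty (fun t => PP i A B st t ++ V t ++ QQ i A B st t) 1) := by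
    intro t ht
    have e : ty (fun t => PP i A B st t ++ V t ++ QQ i A B st t) 1 t = (V t).count 1 + hm (B t) :=
      cnt1 i A B st V t
    rw [e]
    exact sat_sh (sB1' t ht)
  have cs0' : Sh k (fun j => (A j).h) (ty (cs i A B st) 0) :=
    fun t _ => Or.inl (cs0 i A B st t).symm
  have cs1' : Sh k (fun j => (B j).h) (ty (cs i A B st) 1) :=
    fun t _ => Or.inl (cs1 i A B st t).symm
  have cn0' : Sh k (fun j => (A j).h) (ty (cn i A B st) 0) :=
    fun t _ => Or.inl (cn0 hAi hBi st t).symm
  have cn1' : Sh k (fun j => (B j).h) (ty (cn i A B st) 1) :=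
    fun t _ => Or.inl (cn1 hAi hBi st t).symm
  have okU := okb (two_ins i A B st tU) hdA hdB shU0 shU1
  have okV := okb (two_ins i A B st tV) hdA hdB shV0 shV1
  have okc := okb (cs_two k i A B st) hdA hdB cs0' cs1'
  have okn := okb (cn_two k i A B st) hdA hdB cn0' cn1'
  have hA' := h12 hAi
  have hB' := h12 hBi
  have mc0 : 0 ∈ cs i A B st i := mem_of_ty (cs0 i A B st i) (by omega)
  have mc1 : 1 ∈ cs i A B st i := mem_of_ty (cs1 i A B st i) (by omega)
  have mU0 : 0 ∈ PP i A B st i ++ U i ++ QQ i A B st i := by simp [m0]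
  have mU1 : 1 ∈ PP i A B st i ++ U i ++ QQ i A B st i := by simp [m1]
  have hVp : (fp st).Sublist (V i) := by
    have := hV
    unfold Fst at this
    rw [not_not] at this
    exact this
  have mV : 0 ∈ V i ∧ 1 ∈ V i := by
    unfold fp at hVp
    cases st
    · exact ⟨(pair_mem hVp).2, (pair_mem hVp).1⟩
    · exact ⟨(pair_mem hVp).1, (pair_mem hVp).2⟩
  have mV0 : 0 ∈ PP i A B st i ++ V i ++ QQ i A B st i := by simp [mV.1]
  have mV1 : 1 ∈ PP i A B st i ++ V i ++ QQ i A B st i := by simp [mV.2]
  have stU : ∀ s, Fst s (PP i A B st i ++ U i ++ QQ i A B st i) ↔ Fst s (cs i A B st i) := by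
    intro s
    by_cases hs : s = st
    · subst hs
      exact iff_of_true (fst_ins i A B s hU) (fst_cs i A B s)
    · have hs' : s = !st := by cases s <;> cases st <;> simp_all
      subst hs'
      exact iff_of_false (fst_other mU0 mU1 (fst_ins i A B st hU))
        (fst_other mc0 mc1 (fst_cs i A B st))
  have hcn : cn i A B st i = nb (A i).h (B i).h st := by unfold cn; rw [if_pos rfl]
  have stV : ∀ s, Fst s (PP i A B st i ++ V i ++ QQ i A B st i) ↔ Fst s (cn i A B st i) := by
    intro s
    rw [hcn]
    by_cases hs : s = st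
    · subst hs
      exact iff_of_false (not_fst_ins i A B s s hV) (nb_not hA' hB' s)
    · have hs' : s = !st := by cases s <;> cases st <;> simp_all
      subst hs'
      exact fst_V hAi hBi (fun c hc => tV i hi c hc) (sA0' i hi) (sB1' i hi) hV
  have rU : RR β (asm k (fun t => PP i A B st t ++ U t ++ QQ i A B st t))
      (asm k (cs i A B st)) := by
    refine hB.hst k _ _ okU okc (two_ins i A B st tU) (cs_two k i A B st)
      (sh_trans (sh_symm shU0) cs0') (sh_trans (sh_symm shU1) cs1') ?_
    intro i' hi' hc
    by_cases he : i = i'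
    · subst he
      exact ⟨stU false, stU true⟩
    · exfalso
      rcases hc i hi he with h | h
      · exact h mU0
      · exact h mU1
  have rV : RR β (asm k (fun t => PP i A B st t ++ V t ++ QQ i A B st t))
      (asm k (cn i A B st)) := by
    refine hB.hst k _ _ okV okn (two_ins i A B st tV) (cn_two k i A B st)
      (sh_trans (sh_symm shV0) cn0') (sh_trans (sh_symm shV1) cn1') ?_
    intro i' hi' hc
    by_cases he : i = i'
    · subst he
      exact ⟨stV false, stV true⟩
    · exfalso
      rcases hc i hi he with h | h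
      · exact h mV0
      · exact h mV1
  exact β.trans (β.trans (RR.symm rU) r1) rV

end Pool.Agent.MWN.H47
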